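import Pool.Agent.W_908db9_h43.Dic

/-!
MP_908db9_lc: for a continuous action of a Polish group on a subset `A` of a Polish space `X` the
following are equivalent: it extends to a `G_δ` set; it extends to every single point of some
`G_δ` set containing `A`; for every countable subset `D` of `A` its restriction to the orbits of
`D` extends to a `G_δ` set; every countable subset of `A` with compact closure lies in a `G_δ` set
with fewer than continuum many points to which it does not extend; no copy of the Cantor space in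
`X` meets `A` in its eventually false points and has all its other points outside every extension
domain.
-/

open Pool.Agent.W_908db9_h43 TopologicalSpace

namespace Pool.Agent.Results.MP_908db9_lc.PointwiseCriterion

theorem result (G X : Type) [TopologicalSpace G] [Group G] [IsTopologicalGroup G]
    [PolishSpace G] [TopologicalSpace X] [PolishSpace X] (A : Set X) (a : G → A → A)
    (ha : IsContAction A a) :
    List.TFAE [
      ∃ (B : Set X) (b : G → B → B), IsExtension A a B b ∧ IsGδ B,
      ∃ C : Set X, IsGδ C ∧ A ⊆ C ∧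
        ∀ x ∈ C, ∃ (B : Set X) (b : G → B → B), IsExtension A a B b ∧ x ∈ B,
      ∀ (D : Set X) (hD : D ⊆ A), D.Countable →
        ∃ (B : Set X) (b : G → B → B), IsGδ B ∧ D ⊆ B ∧ IsContAction B b ∧
          ∀ (g : G) (x : B) (hx : (x : X) ∈ D),
            ((b g x : B) : X) = ((a g ⟨(x : X), hD hx⟩ : A) : X),
      ∀ D : Set X, D ⊆ A → D.Countable → IsCompact (closure D) →
        ∃ C : Set X, IsGδ C ∧ D ⊆ C ∧
          Cardinal.mk {x : X | x ∈ C ∧
            ¬ ∃ (B : Set X) (b : G → B → B), IsExtension A a B b ∧ x ∈ B} < Cardinal.continuum,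
      ¬ ∃ φ : (ℕ → Bool) → X, Continuous φ ∧ Function.Injective φ ∧
        (∀ x, (∃ n, ∀ m ≥ n, x m = false) → φ x ∈ A) ∧
        (∀ x, (¬ ∃ n, ∀ m ≥ n, x m = false) →
          ¬ ∃ (B : Set X) (b : G → B → B), IsExtension A a B b ∧ φ x ∈ B)] := by
  tfae_have 1 → 2
  | ⟨B, b, hb, hB⟩ => ⟨B, hB, hb.1, fun x hx => ⟨B, b, hb, hx⟩⟩
  tfae_have 2 → 1
  | ⟨C, hC, hAC, hx⟩ => criterion G X A a ha C hC hAC hx
  tfae_have 1 → 3
  | ⟨B, b, hb, hB⟩, _, hD, _ =>
    ⟨B, b, hB, hD.trans hb.1, hb.2.1, fun g x hx => hb.2.2 g x (hD hx)⟩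
  tfae_have 3 → 4
  | h, D, hDA, hDc, _ => by
    obtain ⟨C, hC, hDC, hCR⟩ := exists_reachable_of_orbits ha h D hDc hDA
    exact ⟨C, hC, hDC, mk_lt_continuum_of_subset hCR⟩
  tfae_have 4 → 5
  | h, ⟨_, hφ, hφi, h1, h2⟩ => no_phi_of_countable
      (R := {x | ∃ (B : Set X) (b : G → B → B), IsExtension A a B b ∧ x ∈ B}) h hφ hφi h1 h2
  tfae_have 1 ↔ 5 := dichotomy G X A a ha
  tfae_finish

end Pool.Agent.Results.MP_908db9_lc.PointwiseCriterion
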