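import Pool.Agent.W_908db9_h43.Fun

/-!
MP_908db9_lc: every continuous action of a separable first countable group (in particular of a
Polish group) on a separable metrizable space extends to a Polish space.
-/

open Pool.Agent.W_908db9_h43 TopologicalSpace Topology

namespace Pool.Agent.Results.MP_908db9_lc.PolishExtension

theorem result (G A : Type) [TopologicalSpace G] [Group G] [IsTopologicalGroup G]
    [SeparableSpace G] [FirstCountableTopology G]
    [TopologicalSpace A] [MetrizableSpace A] [SeparableSpace A]
    [MulAction G A] [ContinuousSMul G A] :
    ∃ (P : Type) (_ : TopologicalSpace P) (_ : MulAction G P) (e : A → P),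
      PolishSpace P ∧ ContinuousSMul G P ∧ IsEmbedding e ∧ DenseRange e ∧
        ∀ (g : G) (x : A), e (g • x) = g • e x := by
  let _ : MetricSpace A := metrizableSpaceMetric A
  have _ : SecondCountableTopology A := UniformSpace.secondCountable_of_separable A
  exact polish_extension_all G A

end Pool.Agent.Results.MP_908db9_lc.PolishExtension
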