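import Pool.Agent.W_908db9_h43.Part1

/-!
MP_908db9_lc: for every Polish group which is not locally compact there is a continuous action on
a sigma-compact subset of a locally compact Polish space which has no proper extension.
-/

open Pool.Agent.W_908db9_h43 TopologicalSpace

namespace Pool.Agent.Results.MP_908db9_lc.SigmaCompactDomain

theorem result (G : Type) [TopologicalSpace G] [Group G] [IsTopologicalGroup G]
    [PolishSpace G] (hG : ¬ LocallyCompactSpace G) :
    ∃ (Z : Type) (_ : TopologicalSpace Z) (_ : MulAction G Z) (z₀ : Z)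
      (A : Set {z : Z // z ≠ z₀}) (a : G → A → A),
      CompactSpace Z ∧ MetrizableSpace Z ∧ ContinuousSMul G Z ∧
      PolishSpace {z : Z // z ≠ z₀} ∧
      (∀ (g : G) (x : A), (((a g x : A) : {z : Z // z ≠ z₀}) : Z)
        = g • ((x : {z : Z // z ≠ z₀}) : Z)) ∧
      IsContAction A a ∧ IsSigmaCompact A ∧ Dense A ∧ IsMeagre A ∧ ¬ IsGδ A ∧
      ∀ (B : Set {z : Z // z ≠ z₀}) (b : G → B → B), IsExtension A a B b → B = A :=
  part1 G hG

end Pool.Agent.Results.MP_908db9_lc.SigmaCompactDomain
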